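import Pool.Agent.W198.TC.Basic
import Pool.Agent.W198.TC.Stms
import Pool.Agent.H370R2.NT

open ArithmeticFunction

namespace TC

lemma lsq_i (N : ℕ) (hN : 1 ≤ N) :
    (Real.log N) ^ 2 / 2 - 7 * Real.log N ≤
      ∑ n ∈ Finset.Icc 1 N, (vonMangoldt n / n) * Real.log n := by
  have hN1 : (1 : ℝ) ≤ N := by exact_mod_cast hN
  have hlogN : 0 ≤ Real.log N := Real.log_nonneg hN1
  rw [H370.nt_abel (fun n => vonMangoldt n / n) (fun n => Real.log n) N hN]
  have hlo := H370.nt_mertens_lower N hN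
  have h2 : (Real.log N - 1) * Real.log N ≤
      (∑ n ∈ Finset.Icc 1 N, vonMangoldt n / n) * Real.log N :=
    mul_le_mul_of_nonneg_right hlo hlogN
  have h3 : ∑ n ∈ Finset.Ico 1 N, (∑ k ∈ Finset.Icc 1 n, vonMangoldt k / k) *
        (Real.log ((n + 1 : ℕ) : ℝ) - Real.log n) ≤ (Real.log N) ^ 2 / 2 + 6 * Real.log N := by
    have key : ∀ n ∈ Finset.Ico 1 N, (∑ k ∈ Finset.Icc 1 n, vonMangoldt k / k) *
        (Real.log ((n + 1 : ℕ) : ℝ) - Real.log n) ≤ ((Real.log ((n + 1 : ℕ) : ℝ)) ^ 2 / 2 +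
          6 * Real.log ((n + 1 : ℕ) : ℝ)) - ((Real.log (n : ℝ)) ^ 2 / 2 + 6 * Real.log n) := by
      intro n hn
      have hn1 : 1 ≤ n := (Finset.mem_Ico.1 hn).1
      have hn1' : (1 : ℝ) ≤ n := by exact_mod_cast hn1
      have hup := H370.nt_mertens_upper n hn1
      have hd0 : 0 ≤ Real.log ((n + 1 : ℕ) : ℝ) - Real.log n := by
        rw [sub_nonneg]; apply Real.log_le_log (by linarith); push_cast; linarith
      have h7 := mul_le_mul_of_nonneg_right hup hd0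
      nlinarith [sq_nonneg (Real.log ((n + 1 : ℕ) : ℝ) - Real.log n)]
    have h4 := Finset.sum_le_sum key
    rw [Finset.sum_Ico_sub (fun n : ℕ => (Real.log (n : ℝ)) ^ 2 / 2 + 6 * Real.log n) hN] at h4
    simpa using h4
  nlinarith

/-- the map whose image contains all the prime powers with exponent at least two -/
def lsqg (x : ℕ × Bool) : ℕ := if x.2 then x.1 ^ 2 * x.1.minFac else x.1 ^ 2

lemma lsqg_bound (x : ℕ × Bool) (hx : 2 ≤ x.1) :
    (Real.log (lsqg x)) ^ 2 / (lsqg x) ≤ 144 * (x.1 : ℝ) ^ (-(3 / 2) : ℝ) := by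
  obtain ⟨m, b⟩ := x
  simp only at hx
  have hm : (2 : ℝ) ≤ m := by exact_mod_cast hx
  have hm0 : (0 : ℝ) < m := by linarith
  have hlog0 : 0 ≤ Real.log m := Real.log_nonneg (by linarith)
  have h1 : (Real.log (lsqg (m, b))) ^ 2 / (lsqg (m, b)) ≤ 9 * (Real.log m) ^ 2 / (m : ℝ) ^ 2 := by
    cases b
    · simp only [lsqg, Bool.false_eq_true, if_false]
      push_cast
      rw [Real.log_pow]
      gcongr
      push_cast
      nlinarith [sq_nonneg (Real.log m)]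
    · simp only [lsqg, if_true]
      push_cast
      have hq1 : (1 : ℝ) ≤ m.minFac := by exact_mod_cast m.minFac_pos
      have hqm : (m.minFac : ℝ) ≤ m := by exact_mod_cast Nat.minFac_le (by omega)
      have hlq : Real.log m.minFac ≤ Real.log m := Real.log_le_log (by linarith) hqm
      have hlq0 : 0 ≤ Real.log m.minFac := Real.log_nonneg hq1
      rw [Real.log_mul (by positivity) (by positivity), Real.log_pow]
      push_cast
      have h2 : (2 * Real.log m + Real.log m.minFac) ^ 2 ≤ 9 * (Real.log m) ^ 2 := by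
        nlinarith
      calc (2 * Real.log m + Real.log m.minFac) ^ 2 / ((m : ℝ) ^ 2 * m.minFac)
          ≤ 9 * (Real.log m) ^ 2 / ((m : ℝ) ^ 2 * m.minFac) := by gcongr
        _ ≤ 9 * (Real.log m) ^ 2 / ((m : ℝ) ^ 2 * 1) := by gcongr
        _ = _ := by rw [mul_one]
  refine h1.trans ?_
  have h3 : Real.log m ≤ 4 * (m : ℝ) ^ ((1 : ℝ) / 4) := by
    have := Real.log_le_rpow_div (x := (m : ℝ)) hm0.le (ε := 1 / 4) (by norm_num)
    linarith
  have h4 : (Real.log m) ^ 2 ≤ 16 * (m : ℝ) ^ ((1 : ℝ) / 2) := by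
    have h5 : (Real.log m) ^ 2 ≤ (4 * (m : ℝ) ^ ((1 : ℝ) / 4)) ^ 2 := by gcongr
    have h6 : (4 * (m : ℝ) ^ ((1 : ℝ) / 4)) ^ 2 = 16 * (m : ℝ) ^ ((1 : ℝ) / 2) := by
      rw [mul_pow, ← Real.rpow_natCast ((m : ℝ) ^ ((1 : ℝ) / 4)) 2, ← Real.rpow_mul hm0.le]
      norm_num
    linarith
  have h7 : (m : ℝ) ^ (-(3 / 2) : ℝ) = (m : ℝ) ^ ((1 : ℝ) / 2) / (m : ℝ) ^ 2 := by
    rw [← Real.rpow_natCast (m : ℝ) 2, ← Real.rpow_sub hm0]
    norm_num
  rw [h7, ← mul_div_assoc]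
  refine div_le_div_of_nonneg_right ?_ (by positivity)
  linarith

lemma lsq_mem {n : ℕ} (hn : vonMangoldt n * (Real.log n - vonMangoldt n) / n ≠ 0) {N : ℕ}
    (hN : n ≤ N) :
    n ∈ (Finset.Icc 2 N ×ˢ (Finset.univ : Finset Bool)).image lsqg := by
  have h1 : vonMangoldt n ≠ 0 := by
    intro h; apply hn; rw [h]; simp
  rw [vonMangoldt_ne_zero_iff, isPrimePow_nat_iff] at h1
  obtain ⟨p, k, hp, hk, rfl⟩ := h1
  have hk2 : 2 ≤ k := by
    by_contra hcon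
    have hk1 : k = 1 := by omega
    apply hn
    rw [hk1, pow_one, vonMangoldt_apply_prime hp]
    simp
  rw [Finset.mem_image]
  have hm2 : 2 ≤ p ^ (k / 2) := by
    calc 2 ≤ p := hp.two_le
      _ = p ^ 1 := (pow_one p).symm
      _ ≤ p ^ (k / 2) := Nat.pow_le_pow_right hp.pos (by omega)
  have hmN : p ^ (k / 2) ≤ N := (Nat.pow_le_pow_right hp.pos (by omega)).trans hN
  rcases Nat.even_or_odd k with he | ho
  · refine ⟨(p ^ (k / 2), false), ?_, ?_⟩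
    · simp [hm2, hmN]
    · simp only [lsqg, Bool.false_eq_true, if_false]
      rw [← pow_mul, Nat.div_mul_cancel he.two_dvd]
  · refine ⟨(p ^ (k / 2), true), ?_, ?_⟩
    · simp [hm2, hmN]
    · simp only [lsqg, if_true]
      rw [hp.pow_minFac (by omega), ← pow_mul, ← pow_succ]
      congr 1
      obtain ⟨j, hj⟩ := ho
      omega

lemma lsq_ii : ∃ C : ℝ, 0 < C ∧ ∀ N : ℕ,
    ∑ n ∈ Finset.Icc 1 N, vonMangoldt n * (Real.log n - vonMangoldt n) / n ≤ C := by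
  have hs : Summable (fun m : ℕ => 144 * (m : ℝ) ^ (-(3 / 2) : ℝ)) :=
    (Real.summable_nat_rpow.2 (by norm_num)).mul_left _
  have hnn : ∀ m : ℕ, 0 ≤ 144 * (m : ℝ) ^ (-(3 / 2) : ℝ) := fun m => by positivity
  refine ⟨2 * (∑' m : ℕ, 144 * (m : ℝ) ^ (-(3 / 2) : ℝ)) + 1, by
    have : 0 ≤ ∑' m : ℕ, 144 * (m : ℝ) ^ (-(3 / 2) : ℝ) := tsum_nonneg hnn
    linarith, fun N => ?_⟩
  have hF : ∀ n : ℕ, 0 ≤ (Real.log n) ^ 2 / (n : ℝ) := fun n => by positivity
  have hf : ∀ n : ℕ, vonMangoldt n * (Real.log n - vonMangoldt n) / n ≤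
      (Real.log n) ^ 2 / n := by
    intro n
    have h3 : 0 ≤ vonMangoldt n := vonMangoldt_nonneg
    have h2 : vonMangoldt n ≤ Real.log n := vonMangoldt_le_log
    have h4 : vonMangoldt n * (Real.log n - vonMangoldt n) ≤ (Real.log n) ^ 2 := by nlinarith
    exact div_le_div_of_nonneg_right h4 (Nat.cast_nonneg n)
  classical
  have h1 : ∑ n ∈ Finset.Icc 1 N, vonMangoldt n * (Real.log n - vonMangoldt n) / n ≤
      ∑ n ∈ (Finset.Icc 2 N ×ˢ (Finset.univ : Finset Bool)).image lsqg,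
        (Real.log n) ^ 2 / (n : ℝ) := by
    rw [← Finset.sum_filter_ne_zero]
    refine (Finset.sum_le_sum fun n _ => hf n).trans ?_
    refine Finset.sum_le_sum_of_subset_of_nonneg ?_ fun n _ _ => hF n
    intro n hn
    rw [Finset.mem_filter, Finset.mem_Icc] at hn
    exact lsq_mem hn.2 hn.1.2
  have h2 : ∑ n ∈ (Finset.Icc 2 N ×ˢ (Finset.univ : Finset Bool)).image lsqg,
        (Real.log n) ^ 2 / (n : ℝ) ≤
      ∑ x ∈ Finset.Icc 2 N ×ˢ (Finset.univ : Finset Bool),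
        (Real.log (lsqg x)) ^ 2 / (lsqg x : ℝ) :=
    Finset.sum_image_le_of_nonneg (fun n _ => hF n)
  have h3 : ∑ x ∈ Finset.Icc 2 N ×ˢ (Finset.univ : Finset Bool),
        (Real.log (lsqg x)) ^ 2 / (lsqg x : ℝ) ≤
      ∑ x ∈ Finset.Icc 2 N ×ˢ (Finset.univ : Finset Bool),
        144 * (x.1 : ℝ) ^ (-(3 / 2) : ℝ) := by
    refine Finset.sum_le_sum fun x hx => ?_
    rw [Finset.mem_product, Finset.mem_Icc] at hx
    exact lsqg_bound x hx.1.1
  have h4 : ∑ x ∈ Finset.Icc 2 N ×ˢ (Finset.univ : Finset Bool),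
        144 * (x.1 : ℝ) ^ (-(3 / 2) : ℝ) = 2 * ∑ m ∈ Finset.Icc 2 N,
        144 * (m : ℝ) ^ (-(3 / 2) : ℝ) := by
    rw [Finset.sum_product, Finset.mul_sum]
    refine Finset.sum_congr rfl fun m _ => ?_
    simp
  have h5 : ∑ m ∈ Finset.Icc 2 N, 144 * (m : ℝ) ^ (-(3 / 2) : ℝ) ≤
      ∑' m : ℕ, 144 * (m : ℝ) ^ (-(3 / 2) : ℝ) :=
    hs.sum_le_tsum _ fun m _ => hnn m
  linarith

theorem lsq : S_LSQ := by
  obtain ⟨C, hC, hCb⟩ := lsq_ii
  refine ⟨C + 8, by linarith, fun N hN => ?_⟩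
  have hN1 : (1 : ℝ) ≤ N := by exact_mod_cast hN
  have hlogN : 0 ≤ Real.log N := Real.log_nonneg hN1
  have hup := H370.lam_sq_sum_nat N hN
  have hlo := lsq_i N hN
  have hii := hCb N
  have heq : ∑ n ∈ Finset.Icc 1 N, (lam n) ^ 2 =
      ∑ n ∈ Finset.Icc 1 N, (vonMangoldt n) ^ 2 / n :=
    Finset.sum_congr rfl fun n _ => lam_sq n
  have heq2 : ∑ n ∈ Finset.Icc 1 N, (vonMangoldt n) ^ 2 / n =
      ∑ n ∈ Finset.Icc 1 N, (vonMangoldt n / n) * Real.log n -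
      ∑ n ∈ Finset.Icc 1 N, vonMangoldt n * (Real.log n - vonMangoldt n) / n := by
    rw [← Finset.sum_sub_distrib]
    refine Finset.sum_congr rfl fun n _ => ?_
    ring
  rw [abs_le]
  constructor
  · rw [heq, heq2]
    nlinarith
  · rw [heq]
    nlinarith

end TC
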