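import Pool.Agent.W542.GBCMassVal

/-!
The value of the integrand of the Gauss-Bonnet-Chern mass for the metrics
`δ + h(|x|²) Jx ⊗ Jx` on `ℝ^6`.
-/

namespace Pool.Agent.W542.GBC

open scoped BigOperators ContDiff Topology Matrix
open MeasureTheory Filter Metric Pool.Agent.H498R3.GB

noncomputable section

/-- Kronecker delta -/
def zd (a b : Fin 6) : ℤ := if a = b then 1 else 0

/-- Ricci contraction -/
def zr (A : Fin 6 → Fin 6 → Fin 6 → Fin 6 → ℤ) (b d : Fin 6) : ℤ := ∑ a, A a b a d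

/-- the `P`-tensor -/
def zPt (A : Fin 6 → Fin 6 → Fin 6 → Fin 6 → ℤ) (s : ℤ) (a b c d : Fin 6) : ℤ :=
  A a b c d + zr A b c * zd a d - zr A b d * zd a c - zr A a c * zd b d + zr A a d * zd b c
    + s * (zd a c * zd b d - zd a d * zd b c)

def q1 (a b c d : Fin 6) : ℤ := z1 a * (z1 d * z2 b * z2 c)
def q2 (a b c d : Fin 6) : ℤ := z1 a * (zW b d * z2 c + z2 b * zW c d)
def q3 (a b c d : Fin 6) : ℤ :=
  z1 a * ((z2 b * z1 d - z1 b * z2 d) * z2 c + z2 b * (z2 c * z1 d - z1 c * z2 d))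

lemma sum4_bil (p : Fin 4 → ℝ) (q : Fin 3 → ℝ) (A : Fin 4 → Fin 6 → Fin 6 → Fin 6 → Fin 6 → ℤ)
    (B : Fin 3 → Fin 6 → Fin 6 → Fin 6 → Fin 6 → ℤ) (m : Fin 4 → Fin 3 → ℤ)
    (h : ∀ i j, ∑ a, ∑ b, ∑ c, ∑ d, A i a b c d * B j a b c d = m i j) :
    ∑ a, ∑ b, ∑ c, ∑ d, (∑ i, p i * (A i a b c d : ℝ)) * (∑ j, q j * (B j a b c d : ℝ))
      = ∑ i, ∑ j, p i * q j * (m i j : ℝ) := by
  simp only [← h]
  push_cast
  rw [sum4_prod]
  have e1 : ∀ t : Fin 6 × Fin 6 × Fin 6 × Fin 6,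
      (∑ i, p i * (A i t.1 t.2.1 t.2.2.1 t.2.2.2 : ℝ)) *
        (∑ j, q j * (B j t.1 t.2.1 t.2.2.1 t.2.2.2 : ℝ))
      = ∑ i, ∑ j, p i * q j * ((A i t.1 t.2.1 t.2.2.1 t.2.2.2 : ℝ) *
        (B j t.1 t.2.1 t.2.2.1 t.2.2.2 : ℝ)) := by
    intro t
    rw [Finset.sum_mul]
    refine Finset.sum_congr rfl fun i _ => ?_
    rw [Finset.mul_sum]
    exact Finset.sum_congr rfl fun j _ => by ring
  simp only [e1]
  rw [Finset.sum_comm]
  refine Finset.sum_congr rfl fun i _ => ?_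
  rw [Finset.sum_comm]
  refine Finset.sum_congr rfl fun j _ => ?_
  rw [← Finset.mul_sum, sum4_prod]

lemma dl_eq (a b : Fin 6) : dl a b = (zd a b : ℝ) := by
  unfold dl zd; split_ifs <;> simp

/-- The integrand of the mass of `δ + h(|x|²) Jx ⊗ Jx` in terms of an adapted frame. -/
theorem massIntegrand_value {h : ℝ → ℝ} (hh : ContDiff ℝ ∞ h) (x : E 6) (hx : ‖x‖ ≠ 0)
    {f : Fin 6 → V 6} (hM : ∀ i j, ginv (metJ J6 h) x i j = ∑ a, f a i * f a j)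
    {v : ℝ} (hf : Adapted (dat J6 h x) f ‖x‖ v) {k0 k1 r : ℝ} (hr : ‖x‖ = r)
    (hk0 : (dat J6 h x).h0 = k0) (hk1 : (dat J6 h x).h1 = k1) :
    massIntegrand (metJ J6 h) x = 6 * r * v ^ 2 * k0 * (5 * k0 + 4 * r ^ 2 * k1) := by
  subst hr
  set r := ‖x‖ with hrdef
  set X : ℝ := -(3 * ((dat J6 h x).h0 + (dat J6 h x).h1 * r ^ 2) * v ^ 2
        + 2 * r ^ 2 * (2 * (dat J6 h x).h1 + (dat J6 h x).h2 * r ^ 2) * v ^ 2
        - r ^ 2 * (((dat J6 h x).h0 + (dat J6 h x).h1 * r ^ 2) * v ^ 2) ^ 2) with hX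
  set Z : ℝ := r ^ 2 * ((dat J6 h x).h0 ^ 2 - (dat J6 h x).h1) * v ^ 2 with hZ
  set M : ℝ := ((dat J6 h x).h0 + (dat J6 h x).h1 * r ^ 2) * v with hMu
  set k := (dat J6 h x).h0 with hk
  have key : ∀ a b c d, (dat J6 h x).R f (f a) (f b) (f c) (f d) =
      X * (zt1 a b c d : ℝ) + Z * (zt2 a b c d : ℝ) + k * (zt3 a b c d : ℝ)
        + M * (zt4 a b c d : ℝ) := by
    intro a b c d
    rw [R_table hf]
  have keyR : ∀ b d, (dat J6 h x).Rc f (f b) (f d) =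
      X * (zr zt1 b d : ℝ) + Z * (zr zt2 b d : ℝ)
        + k * (zr zt3 b d : ℝ) + M * (zr zt4 b d : ℝ) := by
    intro b d
    unfold Dat.Rc zr
    simp only [key]
    push_cast
    simp only [Finset.mul_sum, ← Finset.sum_add_distrib]
  have keyS : ∑ b, (dat J6 h x).Rc f (f b) (f b) = 2 * X + 8 * Z - 12 * k := by
    simp only [keyR, Finset.sum_add_distrib, ← Finset.mul_sum]
    have s1 : (∑ b, zr zt1 b b) = 2 := by decide +kernel
    have s2 : (∑ b, zr zt2 b b) = 8 := by decide +kernel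
    have s3 : (∑ b, zr zt3 b b) = -12 := by decide +kernel
    have s4 : (∑ b, zr zt4 b b) = 0 := by decide +kernel
    rw [← Int.cast_sum, ← Int.cast_sum, ← Int.cast_sum, ← Int.cast_sum, s1, s2, s3, s4]
    push_cast; ring
  have keyP : ∀ a b c d, Pf (dat J6 h x) f a b c d = ∑ i, ![X, Z, k, M] i *
      ((![zPt zt1 1, zPt zt2 4, zPt zt3 (-6), zPt zt4 0] i a b c d : ℤ) : ℝ) := by
    intro a b c d
    unfold Pf
    rw [key, keyR, keyR, keyR, keyR, keyS]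
    simp only [dl_eq, Fin.sum_univ_four]
    simp
    unfold zPt
    push_cast
    ring
  have keyT : ∀ a b c d, (dat J6 h x).T (f d) (f b) (f c) * ((dat J6 h x).X (f a) / r) =
      ∑ j, ![2 * r ^ 3 * v ^ 2 * (dat J6 h x).h1, k * r * v, k * r * v ^ 2] j *
      ((![q1, q2, q3] j a b c d : ℤ) : ℝ) := by
    intro a b c d
    unfold Dat.T
    rw [hf.hX, hf.hX, hf.hY, hf.hY, hf.hO, hf.hO, mul_div_cancel_left₀ _ hx]
    simp only [Fin.sum_univ_three]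
    simp
    unfold q1 q2 q3
    push_cast
    simp only [show ∀ a, ((z1 a : ℤ) : ℝ) = e1 a from fun _ => rfl,
      show ∀ a, ((z2 a : ℤ) : ℝ) = e2 a from fun _ => rfl,
      show ∀ a b, ((zW a b : ℤ) : ℝ) = W a b from fun _ _ => rfl]
    ring
  rw [massIntegrand_frame hh x hM]
  simp only [← hrdef, keyP, keyT]
  rw [sum4_bil _ _ _ _ (![![0, 0, 0], ![0, 0, 0], ![6, 0, 18], ![0, 12, 0]] :
    Fin 4 → Fin 3 → ℤ)]
  · simp [Fin.sum_univ_four, Fin.sum_univ_three]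
    rw [hMu, ← hk0, ← hk1]
    ring
  · decide +kernel

end

end Pool.Agent.W542.GBC
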