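import Pool.Agent.H498R3.GBComplete

/-!
The integrand of the Gauss-Bonnet-Chern mass for the metrics `δ + h(|x|²) Jx ⊗ Jx` on `ℝ^6`.
-/

namespace Pool.Agent.W542.GBC

open scoped BigOperators ContDiff Topology Matrix
open MeasureTheory Filter Metric Pool.Agent.H498R3.GB

noncomputable section

variable {n : ℕ} {κ : Type} [Fintype κ]

omit [Fintype κ] in
lemma rev3 [Fintype κ] (F : κ → κ → κ → ℝ) :
    ∑ c, ∑ b, ∑ a, F a b c = ∑ a, ∑ b, ∑ c, F a b c := by
  have h1 : ∀ c, ∑ b, ∑ a, F a b c = ∑ a, ∑ b, F a b c := fun c => Finset.sum_comm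
  simp only [h1]
  rw [Finset.sum_comm]
  refine Finset.sum_congr rfl fun a _ => ?_
  rw [Finset.sum_comm]

omit [Fintype κ] in
lemma rev4 [Fintype κ] (F : κ → κ → κ → κ → ℝ) :
    ∑ d, ∑ c, ∑ b, ∑ a, F a b c d = ∑ a, ∑ b, ∑ c, ∑ d, F a b c d := by
  have h1 : ∀ d, ∑ c, ∑ b, ∑ a, F a b c d = ∑ a, ∑ b, ∑ c, F a b c d :=
    fun d => rev3 fun a b c => F a b c d
  simp only [h1]
  rw [Finset.sum_comm]
  refine Finset.sum_congr rfl fun a _ => ?_
  rw [Finset.sum_comm]
  refine Finset.sum_congr rfl fun b _ => ?_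
  rw [Finset.sum_comm]

/-- raising all four indices, in terms of a frame -/
lemma raise4 {f : κ → V n} {M : Matrix (Fin n) (Fin n) ℝ}
    (hM : ∀ i j, M i j = ∑ a, f a i * f a j) {T : V n → V n → V n → V n → ℝ} (h : Lin4 T)
    (i j k l : Fin n) :
    ∑ a, ∑ b, ∑ c, ∑ d, M i a * M j b * M k c * M l d * T (eb a) (eb b) (eb c) (eb d)
      = ∑ a, ∑ b, ∑ c, ∑ d, f a i * f b j * f c k * f d l * T (f a) (f b) (f c) (f d) := by
  have key1 : ∀ (φ : V n → ℝ), (∀ u v, φ (u + v) = φ u + φ v) → (∀ (t : ℝ) v, φ (t • v) = t * φ v) →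
      ∀ i, ∑ a, M i a * φ (eb a) = ∑ a, f a i * φ (f a) := by
    intro φ ha hs i
    have e : ∀ a, φ (f a) = ∑ m, f a m * φ (eb m) := fun a => lin_expand ha hs (f a)
    simp only [e, hM, Finset.sum_mul, Finset.mul_sum]
    rw [Finset.sum_comm]
    refine Finset.sum_congr rfl fun a _ => Finset.sum_congr rfl fun m _ => ?_
    ring
  have s4 : ∀ a b c, ∑ d, M l d * T a b c (eb d) = ∑ d, f d l * T a b c (f d) := fun a b c =>
    key1 (fun u => T a b c u) (fun u v => h.a4 u v _ _ _) (fun t v => h.s4 t v _ _ _) l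
  have s3 : ∀ a b d, ∑ c, M k c * T a b (eb c) d = ∑ c, f c k * T a b (f c) d := fun a b d =>
    key1 (fun u => T a b u d) (fun u v => h.a3 u v _ _ _) (fun t v => h.s3 t v _ _ _) k
  have s2 : ∀ a c d, ∑ b, M j b * T a (eb b) c d = ∑ b, f b j * T a (f b) c d := fun a c d =>
    key1 (fun u => T a u c d) (fun u v => h.a2 u v _ _ _) (fun t v => h.s2 t v _ _ _) j
  have s1 : ∀ b c d, ∑ a, M i a * T (eb a) b c d = ∑ a, f a i * T (f a) b c d := fun b c d =>
    key1 (fun u => T u b c d) (fun u v => h.a1 u v _ _ _) (fun t v => h.s1 t v _ _ _) i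
  have e4 : ∀ a b c, ∑ d, M i a * M j b * M k c * M l d * T (eb a) (eb b) (eb c) (eb d)
      = ∑ d, M i a * M j b * M k c * (f d l * T (eb a) (eb b) (eb c) (f d)) := by
    intro a b c
    rw [← Finset.mul_sum, ← s4, Finset.mul_sum]
    exact Finset.sum_congr rfl fun d _ => by ring
  simp only [e4]
  have e3 : ∀ a b, ∑ c, ∑ d, M i a * M j b * M k c * (f d l * T (eb a) (eb b) (eb c) (f d))
      = ∑ d, ∑ c, M i a * M j b * f d l * (f c k * T (eb a) (eb b) (f c) (f d)) := by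
    intro a b
    rw [Finset.sum_comm]
    refine Finset.sum_congr rfl fun d _ => ?_
    rw [← Finset.mul_sum, ← s3, Finset.mul_sum]
    exact Finset.sum_congr rfl fun c _ => by ring
  simp only [e3]
  have e2 : ∀ a, ∑ b, ∑ d, ∑ c, M i a * M j b * f d l * (f c k * T (eb a) (eb b) (f c) (f d))
      = ∑ d, ∑ c, ∑ b, M i a * f d l * f c k * (f b j * T (eb a) (f b) (f c) (f d)) := by
    intro a
    rw [Finset.sum_comm]
    refine Finset.sum_congr rfl fun d _ => ?_
    rw [Finset.sum_comm]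
    refine Finset.sum_congr rfl fun c _ => ?_
    rw [← Finset.mul_sum, ← s2, Finset.mul_sum]
    exact Finset.sum_congr rfl fun b _ => by ring
  simp only [e2]
  have e1 : ∑ a, ∑ d, ∑ c, ∑ b, M i a * f d l * f c k * (f b j * T (eb a) (f b) (f c) (f d))
      = ∑ d, ∑ c, ∑ b, ∑ a, f a i * f b j * f c k * f d l * T (f a) (f b) (f c) (f d) := by
    rw [Finset.sum_comm]
    refine Finset.sum_congr rfl fun d _ => ?_
    rw [Finset.sum_comm]
    refine Finset.sum_congr rfl fun c _ => ?_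
    rw [Finset.sum_comm]
    refine Finset.sum_congr rfl fun b _ => ?_
    have : ∀ a, M i a * f d l * f c k * (f b j * T (eb a) (f b) (f c) (f d))
      = (f d l * f c k * f b j) * (M i a * T (eb a) (f b) (f c) (f d)) := fun a => by ring
    simp only [this]
    rw [← Finset.mul_sum, s1, Finset.mul_sum]
    exact Finset.sum_congr rfl fun a _ => by ring
  rw [e1]
  exact rev4 fun a b c d => f a i * f b j * f c k * f d l * T (f a) (f b) (f c) (f d)

/-- raising two indices, in terms of a frame -/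
lemma raise2 {f : κ → V n} {M : Matrix (Fin n) (Fin n) ℝ}
    (hM : ∀ i j, M i j = ∑ a, f a i * f a j) {T : V n → V n → ℝ} (h : Lin2 T)
    (i j : Fin n) :
    ∑ a, ∑ b, M i a * M j b * T (eb a) (eb b)
      = ∑ a, ∑ b, f a i * f b j * T (f a) (f b) := by
  have key1 : ∀ (φ : V n → ℝ), (∀ u v, φ (u + v) = φ u + φ v) → (∀ (t : ℝ) v, φ (t • v) = t * φ v) →
      ∀ i, ∑ a, M i a * φ (eb a) = ∑ a, f a i * φ (f a) := by
    intro φ ha hs i
    have e : ∀ a, φ (f a) = ∑ m, f a m * φ (eb m) := fun a => lin_expand ha hs (f a)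
    simp only [e, hM, Finset.sum_mul, Finset.mul_sum]
    rw [Finset.sum_comm]
    refine Finset.sum_congr rfl fun a _ => Finset.sum_congr rfl fun m _ => ?_
    ring
  have s2 : ∀ a, ∑ b, M j b * T a (eb b) = ∑ b, f b j * T a (f b) := fun a =>
    key1 (fun u => T a u) (fun u v => h.a2 u v _) (fun t v => h.s2 t v _) j
  have s1 : ∀ b, ∑ a, M i a * T (eb a) b = ∑ a, f a i * T (f a) b := fun b =>
    key1 (fun u => T u b) (fun u v => h.a1 u v _) (fun t v => h.s1 t v _) i
  have e2 : ∀ a, ∑ b, M i a * M j b * T (eb a) (eb b) = ∑ b, f b j * (M i a * T (eb a) (f b)) := by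
    intro a
    have : ∀ b, M i a * M j b * T (eb a) (eb b) = M i a * (M j b * T (eb a) (eb b)) :=
      fun b => by ring
    simp only [this]
    rw [← Finset.mul_sum, s2, Finset.mul_sum]
    exact Finset.sum_congr rfl fun b _ => by ring
  simp only [e2]
  rw [Finset.sum_comm]
  simp only [← Finset.mul_sum, s1]
  simp only [Finset.mul_sum]
  rw [Finset.sum_comm]
  exact Finset.sum_congr rfl fun a _ => Finset.sum_congr rfl fun b _ => by ring

/-- Kronecker delta -/
def dl (a b : Fin 6) : ℝ := if a = b then 1 else 0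

/-- the frame components of the tensor `P` -/
def Pf (D : Dat 6) (f : Fin 6 → V 6) (a b c d : Fin 6) : ℝ :=
  D.R f (f a) (f b) (f c) (f d) + D.Rc f (f b) (f c) * dl a d - D.Rc f (f b) (f d) * dl a c
    - D.Rc f (f a) (f c) * dl b d + D.Rc f (f a) (f d) * dl b c
    + (∑ e, D.Rc f (f e) (f e)) / 2 * (dl a c * dl b d - dl a d * dl b c)

lemma PUp_eq {h : ℝ → ℝ} (hh : ContDiff ℝ ∞ h) (x : E 6) {f : Fin 6 → V 6}
    (hM : ∀ i j, ginv (metJ J6 h) x i j = ∑ a, f a i * f a j) (i j k l : Fin 6) :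
    PUp (metJ J6 h) x i j k l = ∑ a, ∑ b, ∑ c, ∑ d,
      f a i * f b j * f c k * f d l * Pf (dat J6 h x) f a b c d := by
  have hR : RmUp (metJ J6 h) x i j k l = ∑ a, ∑ b, ∑ c, ∑ d,
      f a i * f b j * f c k * f d l * (dat J6 h x).R f (f a) (f b) (f c) (f d) := by
    unfold RmUp
    simp only [Rm_eq_R J6 x hh hM]
    exact raise4 hM ((dat J6 h x).lin4 f) i j k l
  have hRc : ∀ i j, RicUp (metJ J6 h) x i j = ∑ a, ∑ b,
      f a i * f b j * (dat J6 h x).Rc f (f a) (f b) := by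
    intro i j
    unfold RicUp
    simp only [Ric_eq J6 x hh hM]
    exact raise2 hM ((dat J6 h x).lin2_Rc f) i j
  unfold PUp
  rw [hR, hRc, hRc, hRc, hRc, hM, hM, hM, hM, Scal_eq J6 x hh hM]
  have t1 : (∑ b, ∑ c, f b j * f c k * (dat J6 h x).Rc f (f b) (f c)) * (∑ a, f a i * f a l)
      = ∑ a, ∑ b, ∑ c, ∑ d, f a i * f b j * f c k * f d l *
        ((dat J6 h x).Rc f (f b) (f c) * dl a d) := by
    simp only [dl, mul_ite, mul_one, mul_zero, Finset.sum_ite_eq, Finset.mem_univ, if_true]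
    rw [mul_comm, Finset.sum_mul]
    refine Finset.sum_congr rfl fun a _ => ?_
    rw [Finset.mul_sum]
    refine Finset.sum_congr rfl fun b _ => ?_
    rw [Finset.mul_sum]
    refine Finset.sum_congr rfl fun c _ => ?_
    ring
  have t2 : (∑ b, ∑ d, f b j * f d l * (dat J6 h x).Rc f (f b) (f d)) * (∑ a, f a i * f a k)
      = ∑ a, ∑ b, ∑ c, ∑ d, f a i * f b j * f c k * f d l *
        ((dat J6 h x).Rc f (f b) (f d) * dl a c) := by
    rw [mul_comm, Finset.sum_mul]
    refine Finset.sum_congr rfl fun a _ => ?_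
    rw [Finset.mul_sum]
    refine Finset.sum_congr rfl fun b _ => ?_
    symm
    rw [Finset.sum_eq_single a (by intro c _ hc; simp [dl, Ne.symm hc]) (by simp), Finset.mul_sum]
    refine Finset.sum_congr rfl fun d _ => ?_
    simp only [dl, if_true]; ring
  have t3 : (∑ a, ∑ c, f a i * f c k * (dat J6 h x).Rc f (f a) (f c)) * (∑ b, f b j * f b l)
      = ∑ a, ∑ b, ∑ c, ∑ d, f a i * f b j * f c k * f d l *
        ((dat J6 h x).Rc f (f a) (f c) * dl b d) := by
    rw [Finset.sum_mul]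
    refine Finset.sum_congr rfl fun a _ => ?_
    rw [mul_comm, Finset.sum_mul]
    refine Finset.sum_congr rfl fun b _ => ?_
    rw [Finset.mul_sum]
    refine Finset.sum_congr rfl fun c _ => ?_
    rw [Finset.sum_eq_single b (by intro d _ hd; simp [dl, Ne.symm hd]) (by simp)]
    simp only [dl, if_true]; ring
  have t4 : (∑ a, ∑ d, f a i * f d l * (dat J6 h x).Rc f (f a) (f d)) * (∑ b, f b j * f b k)
      = ∑ a, ∑ b, ∑ c, ∑ d, f a i * f b j * f c k * f d l *
        ((dat J6 h x).Rc f (f a) (f d) * dl b c) := by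
    rw [Finset.sum_mul]
    refine Finset.sum_congr rfl fun a _ => ?_
    rw [mul_comm, Finset.sum_mul]
    refine Finset.sum_congr rfl fun b _ => ?_
    symm
    rw [Finset.sum_eq_single b (by intro c _ hc; simp [dl, Ne.symm hc]) (by simp), Finset.mul_sum]
    refine Finset.sum_congr rfl fun d _ => ?_
    simp only [dl, if_true]; ring
  have t5 : (∑ a, f a i * f a k) * (∑ b, f b j * f b l)
      = ∑ a, ∑ b, ∑ c, ∑ d, f a i * f b j * f c k * f d l * (dl a c * dl b d) := by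
    rw [Finset.sum_mul]
    refine Finset.sum_congr rfl fun a _ => ?_
    rw [Finset.mul_sum]
    refine Finset.sum_congr rfl fun b _ => ?_
    rw [Finset.sum_eq_single a (by intro c _ hc; simp [dl, Ne.symm hc]) (by simp),
      Finset.sum_eq_single b (by intro d _ hd; simp [dl, Ne.symm hd]) (by simp)]
    simp only [dl, if_true]; ring
  have t6 : (∑ a, f a i * f a l) * (∑ b, f b j * f b k)
      = ∑ a, ∑ b, ∑ c, ∑ d, f a i * f b j * f c k * f d l * (dl a d * dl b c) := by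
    rw [Finset.sum_mul]
    refine Finset.sum_congr rfl fun a _ => ?_
    rw [Finset.mul_sum]
    refine Finset.sum_congr rfl fun b _ => ?_
    rw [Finset.sum_eq_single b (by intro c _ hc; simp [dl, Ne.symm hc]) (by simp),
      Finset.sum_eq_single a (by intro d _ hd; simp [dl, Ne.symm hd]) (by simp)]
    simp only [dl, if_true]; ring
  rw [t1, t2, t3, t4, mul_sub, t5, t6]
  simp only [Finset.mul_sum, ← Finset.sum_add_distrib, ← Finset.sum_sub_distrib]
  refine Finset.sum_congr rfl fun a _ => Finset.sum_congr rfl fun b _ =>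
    Finset.sum_congr rfl fun c _ => Finset.sum_congr rfl fun d _ => ?_
  unfold Pf
  ring

lemma T_expand (D : Dat 6) (u v w : V 6) :
    D.T u v w = ∑ j, ∑ k, ∑ l, v j * w k * u l * D.T (eb l) (eb j) (eb k) := by
  rw [lin_expand (φ := fun z => D.T u z w) (fun p q => D.T_add2 p q _ _)
    (fun t q => D.T_smul2 t q _ _) v]
  refine Finset.sum_congr rfl fun j _ => ?_
  rw [lin_expand (φ := fun z => D.T u (eb j) z) (fun p q => D.T_add3 p q _ _)
    (fun t q => D.T_smul3 t q _ _) w, Finset.mul_sum]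
  refine Finset.sum_congr rfl fun k _ => ?_
  rw [lin_expand (φ := fun z => D.T z (eb j) (eb k)) (fun p q => D.T_add1 p q _ _)
    (fun t q => D.T_smul1 t q _ _) u, Finset.mul_sum, Finset.mul_sum]
  refine Finset.sum_congr rfl fun l _ => ?_
  ring

lemma sum4_prod (H : Fin 6 → Fin 6 → Fin 6 → Fin 6 → ℝ) :
    ∑ i, ∑ j, ∑ k, ∑ l, H i j k l
      = ∑ p : Fin 6 × Fin 6 × Fin 6 × Fin 6, H p.1 p.2.1 p.2.2.1 p.2.2.2 := by
  simp only [Fintype.sum_prod_type]

theorem massIntegrand_frame {h : ℝ → ℝ} (hh : ContDiff ℝ ∞ h) (x : E 6) {f : Fin 6 → V 6}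
    (hM : ∀ i j, ginv (metJ J6 h) x i j = ∑ a, f a i * f a j) :
    massIntegrand (metJ J6 h) x = ∑ a, ∑ b, ∑ c, ∑ d,
      Pf (dat J6 h x) f a b c d * ((dat J6 h x).T (f d) (f b) (f c) *
        ((dat J6 h x).X (f a) / ‖x‖)) := by
  unfold massIntegrand
  simp only [PUp_eq hh x hM, pd_eq_T J6 x hh]
  rw [sum4_prod, sum4_prod]
  simp only [sum4_prod (fun a b c d => _ * Pf (dat J6 h x) f a b c d)]
  have e1 : ∀ p : Fin 6 × Fin 6 × Fin 6 × Fin 6,
      (∑ q : Fin 6 × Fin 6 × Fin 6 × Fin 6,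
        f q.1 p.1 * f q.2.1 p.2.1 * f q.2.2.1 p.2.2.1 * f q.2.2.2 p.2.2.2 *
          Pf (dat J6 h x) f q.1 q.2.1 q.2.2.1 q.2.2.2) *
        (dat J6 h x).T (eb p.2.2.2) (eb p.2.1) (eb p.2.2.1) * (x p.1 / ‖x‖)
      = ∑ q : Fin 6 × Fin 6 × Fin 6 × Fin 6, Pf (dat J6 h x) f q.1 q.2.1 q.2.2.1 q.2.2.2 *
        ((f q.1 p.1 * (x p.1 / ‖x‖)) * (f q.2.1 p.2.1 * f q.2.2.1 p.2.2.1 * f q.2.2.2 p.2.2.2 *
          (dat J6 h x).T (eb p.2.2.2) (eb p.2.1) (eb p.2.2.1))) := by
    intro p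
    rw [Finset.sum_mul, Finset.sum_mul]
    exact Finset.sum_congr rfl fun q _ => by ring
  simp only [e1]
  rw [Finset.sum_comm]
  refine Finset.sum_congr rfl fun q _ => ?_
  rw [← Finset.mul_sum]
  congr 1
  rw [Fintype.sum_prod_type]
  simp only [Fintype.sum_prod_type]
  rw [T_expand (dat J6 h x) (f q.2.2.2) (f q.2.1) (f q.2.2.1), mul_comm, dat_X, Finset.sum_div,
    Finset.sum_mul]
  refine Finset.sum_congr rfl fun i _ => ?_
  simp only [Finset.mul_sum]
  refine Finset.sum_congr rfl fun j _ => Finset.sum_congr rfl fun k _ =>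
    Finset.sum_congr rfl fun l _ => ?_
  ring

end

end Pool.Agent.W542.GBC
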