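import Pool.Agent.W542.GBCMassTab

/-!
A metric on `ℝ^6` with positive Gauss-Bonnet curvature and negative Gauss-Bonnet-Chern mass.
-/

namespace Pool.Agent.W542.GBC

open scoped BigOperators ContDiff Topology Matrix
open MeasureTheory Filter Metric Pool.Agent.H498R3.GB

noncomputable section

/-- `σ(s) = (1 + s)^{-1/2}` -/
def sg (s : ℝ) : ℝ := (Real.sqrt (1 + s))⁻¹

lemma sg_pos {s : ℝ} (hs : -1 < s) : 0 < sg s := by
  unfold sg
  have : 0 < Real.sqrt (1 + s) := Real.sqrt_pos.2 (by linarith)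
  positivity

lemma sg_sq {s : ℝ} (hs : -1 < s) : sg s ^ 2 * (1 + s) = 1 := by
  unfold sg
  have h1 : 0 < 1 + s := by linarith
  rw [inv_pow, Real.sq_sqrt h1.le, inv_mul_cancel₀ h1.ne']

lemma sg_hasDerivAt {s : ℝ} (hs : -1 < s) : HasDerivAt sg (-(1 / 2) * sg s ^ 3) s := by
  have h1 : 0 < 1 + s := by linarith
  have h2 : HasDerivAt (fun u : ℝ => 1 + u) 1 s := by
    simpa using (hasDerivAt_id s).const_add 1
  have h3 := h2.sqrt h1.ne'
  have hq : Real.sqrt (1 + s) ≠ 0 := (Real.sqrt_pos.2 h1).ne'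
  have h4 := h3.inv hq
  unfold sg
  refine h4.congr_deriv ?_
  field_simp

lemma sg_contDiffAt {s : ℝ} (hs : -1 < s) : ContDiffAt ℝ ∞ sg s := by
  have h1 : 0 < 1 + s := by linarith
  unfold sg
  refine ContDiffAt.inv ?_ (Real.sqrt_pos.2 h1).ne'
  exact (contDiffAt_const.add contDiffAt_id).sqrt h1.ne'

lemma sg_pow_hasDerivAt {s : ℝ} (hs : -1 < s) (m : ℕ) :
    HasDerivAt (fun u => sg u ^ m) (-(m / 2 : ℝ) * sg s ^ (m + 2)) s := by
  rcases Nat.eq_zero_or_pos m with rfl | hm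
  · simpa using hasDerivAt_const s (1 : ℝ)
  · have h := (sg_hasDerivAt hs).fun_pow m
    refine h.congr_deriv ?_
    obtain ⟨k, rfl⟩ : ∃ k, m = k + 1 := ⟨m - 1, by omega⟩
    simp only [Nat.add_sub_cancel]
    push_cast
    ring

/-- the profile: `5 (1 + s)^{-3/2}` for `s ≥ -1/2`, cut off smoothly for negative `s` -/
def hN (s : ℝ) : ℝ := Real.smoothTransition (4 * s + 3) * (5 * sg s ^ 3)

lemma hN_eq {s : ℝ} (hs : -(1 / 2) ≤ s) : hN s = 5 * sg s ^ 3 := by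
  unfold hN
  rw [Real.smoothTransition.one_of_one_le (by linarith), one_mul]

lemma hN_contDiff : ContDiff ℝ ∞ hN := by
  rw [contDiff_iff_contDiffAt]
  intro s
  rcases lt_or_ge (-1) s with hs | hs
  · unfold hN
    have h1 : ContDiffAt ℝ ∞ (fun u : ℝ => Real.smoothTransition (4 * u + 3)) s :=
      (Real.smoothTransition.contDiff.comp (by fun_prop)).contDiffAt
    exact h1.mul (contDiffAt_const.mul ((sg_contDiffAt hs).pow 3))
  · have : hN =ᶠ[𝓝 s] fun _ => 0 := by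
      filter_upwards [gt_mem_nhds (show s < -(3 / 4) by linarith)] with u hu
      unfold hN
      rw [Real.smoothTransition.zero_of_nonpos (by linarith), zero_mul]
    exact contDiffAt_const.congr_of_eventuallyEq this

lemma hN_hasDerivAt {s : ℝ} (hs : -(1 / 2) < s) : HasDerivAt hN (-(15 / 2) * sg s ^ 5) s := by
  have e : (fun u => 5 * sg u ^ 3) =ᶠ[𝓝 s] hN := by
    filter_upwards [lt_mem_nhds hs] with u hu
    exact (hN_eq hu.le).symm
  have h := (sg_pow_hasDerivAt (s := s) (by linarith) 3).const_mul 5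
  refine (h.congr_deriv ?_).congr_of_eventuallyEq e.symm
  push_cast; ring

lemma hN_deriv {s : ℝ} (hs : -(1 / 2) < s) : deriv hN s = -(15 / 2) * sg s ^ 5 :=
  (hN_hasDerivAt hs).deriv

lemma hN_deriv2 {s : ℝ} (hs : -(1 / 2) < s) : deriv (deriv hN) s = 75 / 4 * sg s ^ 7 := by
  have e : deriv hN =ᶠ[𝓝 s] fun u => -(15 / 2) * sg u ^ 5 := by
    filter_upwards [lt_mem_nhds hs] with u hu
    exact hN_deriv hu
  rw [e.deriv_eq]
  have h := (sg_pow_hasDerivAt (s := s) (by linarith) 5).const_mul (-(15 / 2))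
  rw [h.deriv]
  push_cast; ring

/-- The metric `δ_ij + h(|x|²) (Jx)_i (Jx)_j` on `ℝ^6`. -/
def gN : MetricField 6 := metJ J6 hN

lemma hN_nonneg {s : ℝ} (hs : 0 ≤ s) : 0 ≤ hN s := by
  rw [hN_eq (by linarith)]
  have := sg_pos (s := s) (by linarith)
  positivity

/-- The value of `L_2` as a function of `σ = (1+s)^{-1/2}`. -/
theorem L2_gN (x : E 6) {t : ℝ} (ht : t = sg (‖x‖ ^ 2)) :
    0 < 1 + 5 * t * (1 - t ^ 2) ∧ 
    L2 gN x = 300 * t ^ 6 * (2 * (5 * t * (1 - t ^ 2)) ^ 2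
      + (39 * t ^ 4 - 12 * t ^ 2 + 1) * (5 * t * (1 - t ^ 2)) + 6 * t ^ 2 * (8 * t ^ 2 - 3))
      / (1 + 5 * t * (1 - t ^ 2)) ^ 2 := by
  have hs0 : 0 ≤ ‖x‖ ^ 2 := by positivity
  have htp : 0 < t := ht ▸ sg_pos (by linarith)
  have hq := sg_sq (s := ‖x‖ ^ 2) (by linarith)
  rw [← ht] at hq
  have ht1 : t ^ 2 ≤ 1 := by nlinarith
  have hD0 : 0 < 1 + 5 * t * (1 - t ^ 2) := by
    have : 0 ≤ 5 * t * (1 - t ^ 2) := by
      have : 0 ≤ 1 - t ^ 2 := by linarith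
      positivity
    linarith
  refine ⟨hD0, ?_⟩
  have hD : 1 + 5 * t * (1 - t ^ 2) = 1 + 5 * t ^ 3 * ‖x‖ ^ 2 := by
    linear_combination -5 * t * hq
  have h := L2_metJ6 hN_contDiff x (s := ‖x‖ ^ 2) (D := 1 + 5 * t * (1 - t ^ 2))
    (k0 := 5 * t ^ 3) (k1 := -(15 / 2) * t ^ 5) (k2 := 75 / 4 * t ^ 7) rfl
    (by rw [hN_eq (by linarith), ht]) (by rw [hN_deriv (by linarith), ht])
    (by rw [hN_deriv2 (by linarith), ht]) hD hD0
  unfold gN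
  rw [h]
  have hs : ‖x‖ ^ 2 = (1 - t ^ 2) / t ^ 2 := by
    field_simp
    linarith
  rw [hs]
  field_simp
  ring

lemma poly_pos' {t : ℝ} (h0 : 0 < t) (h1 : t ^ 2 ≤ 1) :
    0 < 2 * (5 * t * (1 - t ^ 2)) ^ 2
      + (39 * t ^ 4 - 12 * t ^ 2 + 1) * (5 * t * (1 - t ^ 2)) + 6 * t ^ 2 * (8 * t ^ 2 - 3) := by
  have e : 2 * (5 * t * (1 - t ^ 2)) ^ 2
      + (39 * t ^ 4 - 12 * t ^ 2 + 1) * (5 * t * (1 - t ^ 2)) + 6 * t ^ 2 * (8 * t ^ 2 - 3)
      = 5 * t * (1 - t ^ 2) * (39 * t ^ 4 - 12 * t ^ 2 + 1)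
        + t ^ 2 * (32 - 52 * t ^ 2 + 50 * t ^ 4) := by ring
  rw [e]
  have a1 : 0 ≤ 1 - t ^ 2 := by linarith
  have a2 : 0 < 39 * t ^ 4 - 12 * t ^ 2 + 1 := by nlinarith [sq_nonneg (t ^ 2 - 2 / 13)]
  have a3 : 0 < 32 - 52 * t ^ 2 + 50 * t ^ 4 := by nlinarith [sq_nonneg (t ^ 2 - 26 / 50)]
  have a4 : 0 ≤ 5 * t * (1 - t ^ 2) * (39 * t ^ 4 - 12 * t ^ 2 + 1) := by positivity
  have a5 : 0 < t ^ 2 * (32 - 52 * t ^ 2 + 50 * t ^ 4) := by positivity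
  linarith

lemma poly_le {t : ℝ} (h0 : 0 < t) (h1 : t ≤ 1) :
    2 * (5 * t * (1 - t ^ 2)) ^ 2
      + (39 * t ^ 4 - 12 * t ^ 2 + 1) * (5 * t * (1 - t ^ 2)) + 6 * t ^ 2 * (8 * t ^ 2 - 3)
      ≤ 300 * t := by
  have e : 2 * (5 * t * (1 - t ^ 2)) ^ 2
      + (39 * t ^ 4 - 12 * t ^ 2 + 1) * (5 * t * (1 - t ^ 2)) + 6 * t ^ 2 * (8 * t ^ 2 - 3)
      = t * (5 * ((1 - t ^ 2) * (39 * t ^ 4 - 12 * t ^ 2 + 1))
        + t * (32 - 52 * t ^ 2 + 50 * t ^ 4)) := by ring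
  rw [e, mul_comm (300 : ℝ)]
  refine mul_le_mul_of_nonneg_left ?_ h0.le
  have b2 : t ^ 2 ≤ 1 := by nlinarith
  have b4 : t ^ 4 ≤ 1 := by nlinarith [sq_nonneg (t ^ 2)]
  have c1 : (1 - t ^ 2) * (39 * t ^ 4 - 12 * t ^ 2 + 1) ≤ 1 * 40 := by
    refine mul_le_mul (by nlinarith) (by nlinarith) (by nlinarith [sq_nonneg (t ^ 2 - 2 / 13)])
      (by norm_num)
  have c2 : t * (32 - 52 * t ^ 2 + 50 * t ^ 4) ≤ 1 * 82 := by
    refine mul_le_mul h1 (by nlinarith) (by nlinarith [sq_nonneg (t ^ 2 - 26 / 50)]) (by norm_num)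
  linarith

lemma sg_le_one {s : ℝ} (hs : 0 ≤ s) : sg s ≤ 1 := by
  have h1 := sg_sq (s := s) (by linarith)
  have h2 := sg_pos (s := s) (by linarith)
  have : sg s ^ 2 ≤ 1 := by nlinarith [sq_nonneg (sg s)]
  nlinarith

lemma sg_sq_le_one {s : ℝ} (hs : 0 ≤ s) : sg s ^ 2 ≤ 1 := by
  have h1 := sg_sq (s := s) (by linarith)
  nlinarith [sq_nonneg (sg s)]

/-- `L_2 > 0` everywhere -/
theorem L2_gN_pos (x : E 6) : 0 < L2 gN x := by
  have hs0 : 0 ≤ ‖x‖ ^ 2 := by positivity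
  obtain ⟨h1, h2⟩ := L2_gN x rfl
  have htp : 0 < sg (‖x‖ ^ 2) := sg_pos (by linarith)
  rw [h2]
  have h3 := poly_pos' htp (sg_sq_le_one hs0)
  exact div_pos (mul_pos (by positivity) h3) (by positivity)

/-- determinant of the metrics `δ + h(|x|²) Jx ⊗ Jx` -/
lemma metJ_det (h : ℝ → ℝ) (x : E 6) : (metJ J6 h x).det = 1 + h (‖x‖ ^ 2) * ‖x‖ ^ 2 := by
  have e : metJ J6 h x = 1 + Matrix.replicateCol Unit (fun i => h (‖x‖ ^ 2) * yv J6 i x)
      * Matrix.replicateRow Unit (fun j => yv J6 j x) := by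
    ext i j
    simp [metJ, Matrix.mul_apply, mul_assoc]
  rw [e, Matrix.det_one_add_replicateCol_mul_replicateRow]
  have h1 := dt_Jv_Jv x.ofLp x.ofLp
  have hx : dt x.ofLp x.ofLp = ‖x‖ ^ 2 := by
    rw [EuclideanSpace.norm_sq_eq]; simp [dt, sq]
  rw [hx] at h1
  rw [← h1]
  have h2 : dt (Jv x.ofLp) (Jv x.ofLp) = ∑ i, yv J6 i x * yv J6 i x := rfl
  rw [h2]
  simp only [dotProduct, Finset.mul_sum]
  congr 1
  exact Finset.sum_congr rfl fun i _ => by ring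

lemma gN_D (x : E 6) : 1 + hN (‖x‖ ^ 2) * ‖x‖ ^ 2
    = 1 + 5 * sg (‖x‖ ^ 2) * (1 - sg (‖x‖ ^ 2) ^ 2) := by
  have hs0 : 0 ≤ ‖x‖ ^ 2 := by positivity
  rw [hN_eq (by linarith)]
  have hq := sg_sq (s := ‖x‖ ^ 2) (by linarith)
  linear_combination 5 * sg (‖x‖ ^ 2) * hq

lemma gN_D_bounds (x : E 6) : 1 ≤ 1 + hN (‖x‖ ^ 2) * ‖x‖ ^ 2 ∧
    1 + hN (‖x‖ ^ 2) * ‖x‖ ^ 2 ≤ 6 := by
  have hs0 : 0 ≤ ‖x‖ ^ 2 := by positivity
  rw [gN_D]
  have h0 := sg_pos (s := ‖x‖ ^ 2) (by linarith)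
  have h1 := sg_le_one hs0
  have h2 := sg_sq_le_one hs0
  set t := sg (‖x‖ ^ 2)
  constructor
  · have : 0 ≤ 1 - t ^ 2 := by linarith
    have : 0 ≤ 5 * t * (1 - t ^ 2) := by positivity
    linarith
  · have : t * (1 - t ^ 2) ≤ 1 * 1 :=
      mul_le_mul h1 (by nlinarith) (by linarith) (by norm_num)
    linarith

lemma sg_continuousOn : ContinuousOn sg (Set.Ici 0) := fun s hs =>
  ((sg_contDiffAt (s := s) (by have : 0 ≤ s := hs; linarith)).continuousAt).continuousWithinAt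

lemma sg_norm_continuous : Continuous fun x : E 6 => sg (‖x‖ ^ 2) := by
  have : Continuous fun x : E 6 => ‖x‖ ^ 2 := by fun_prop
  exact sg_continuousOn.comp_continuous this fun x => by
    have : (0 : ℝ) ≤ ‖x‖ ^ 2 := by positivity
    exact this

lemma gN_contDiff (i j : Fin 6) : ContDiff ℝ ∞ (fun x => gN x i j) := by
  unfold gN metJ
  simp only [Matrix.of_apply]
  exact contDiff_const.add ((contDiff_hn hN_contDiff).mul ((contDiff_yv _ _).mul (contDiff_yv _ _)))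

lemma L2_gN_continuous : Continuous (L2 gN) := by
  have e : L2 gN = fun x => 300 * sg (‖x‖ ^ 2) ^ 6 * (2 * (5 * sg (‖x‖ ^ 2) * (1 - sg (‖x‖ ^ 2) ^ 2)) ^ 2
      + (39 * sg (‖x‖ ^ 2) ^ 4 - 12 * sg (‖x‖ ^ 2) ^ 2 + 1) *
        (5 * sg (‖x‖ ^ 2) * (1 - sg (‖x‖ ^ 2) ^ 2)) + 6 * sg (‖x‖ ^ 2) ^ 2 *
        (8 * sg (‖x‖ ^ 2) ^ 2 - 3))
      / (1 + 5 * sg (‖x‖ ^ 2) * (1 - sg (‖x‖ ^ 2) ^ 2)) ^ 2 := funext fun x => (L2_gN x rfl).2
  rw [e]
  have hc := sg_norm_continuous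
  refine Continuous.div (by fun_prop) (by fun_prop) fun x => ?_
  exact pow_ne_zero _ (L2_gN x rfl).1.ne'

lemma volDensity_gN_continuous : Continuous (volDensity gN) := by
  unfold volDensity
  refine Real.continuous_sqrt.comp ?_
  refine Continuous.matrix_det ?_
  exact continuous_matrix fun i j => (gN_contDiff i j).continuous

lemma sg_pow_seven {s : ℝ} (hs : 0 ≤ s) : sg s ^ 7 = (1 + s) ^ (-(7 : ℝ) / 2) := by
  have h1 : 0 < 1 + s := by linarith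
  have e : sg s = (1 + s) ^ (-(1 / 2) : ℝ) := by
    unfold sg
    rw [Real.sqrt_eq_rpow, Real.rpow_neg h1.le]
  rw [e, ← Real.rpow_natCast, ← Real.rpow_mul h1.le]
  congr 1
  norm_num

lemma L2_gN_integrable : Integrable (fun x => L2 gN x * volDensity gN x) := by
  have hI : Integrable (fun x : E 6 => ((1 : ℝ) + ‖x‖ ^ 2) ^ (-(7 : ℝ) / 2)) :=
    integrable_rpow_neg_one_add_norm_sq (by simp; norm_num)
  refine (hI.const_mul 90000).mono'
    (L2_gN_continuous.mul volDensity_gN_continuous).aestronglyMeasurable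
    (Filter.Eventually.of_forall fun x => ?_)
  have hs0 : 0 ≤ ‖x‖ ^ 2 := by positivity
  have hL := L2_gN_pos x
  have hv0 : 0 ≤ volDensity gN x := Real.sqrt_nonneg _
  rw [Real.norm_of_nonneg (mul_nonneg hL.le hv0), ← sg_pow_seven hs0]
  obtain ⟨hD0, hL2⟩ := L2_gN x rfl
  have hvol : volDensity gN x = Real.sqrt (1 + 5 * sg (‖x‖ ^ 2) * (1 - sg (‖x‖ ^ 2) ^ 2)) := by
    unfold volDensity gN
    rw [metJ_det, gN_D]
  rw [hL2, hvol]
  have h0 := sg_pos (s := ‖x‖ ^ 2) (by linarith)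
  have h1 := sg_le_one hs0
  have hb := gN_D_bounds x
  rw [gN_D] at hb
  have hp0 := poly_pos' h0 (sg_sq_le_one hs0)
  have hp1 := poly_le h0 h1
  set t := sg (‖x‖ ^ 2)
  set D := 1 + 5 * t * (1 - t ^ 2)
  set Q := 2 * (5 * t * (1 - t ^ 2)) ^ 2
      + (39 * t ^ 4 - 12 * t ^ 2 + 1) * (5 * t * (1 - t ^ 2)) + 6 * t ^ 2 * (8 * t ^ 2 - 3)
  have hsq : Real.sqrt D ≤ D ^ 2 := by
    rw [Real.sqrt_le_left (by positivity)]
    have h2 : 1 ≤ D ^ 2 := by nlinarith [hb.1]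
    have h3 : D ≤ D ^ 2 := by nlinarith [hb.1]
    nlinarith [hb.1]
  have e : 300 * t ^ 6 * Q / D ^ 2 * Real.sqrt D = (300 * t ^ 6 * Q) * (Real.sqrt D / D ^ 2) := by
    ring
  rw [e]
  have h4 : Real.sqrt D / D ^ 2 ≤ 1 := by
    rw [div_le_one (by positivity)]; exact hsq
  have h5 : 0 ≤ Real.sqrt D / D ^ 2 := by positivity
  calc (300 * t ^ 6 * Q) * (Real.sqrt D / D ^ 2) ≤ (300 * t ^ 6 * Q) * 1 :=
        mul_le_mul_of_nonneg_left h4 (by positivity)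
    _ ≤ 300 * t ^ 6 * (300 * t) := by
        rw [mul_one]; exact mul_le_mul_of_nonneg_left hp1 (by positivity)
    _ = 90000 * t ^ 7 := by ring

/-! ### positivity, completeness -/

lemma metJ_formN (x v : E 6) : ∑ i, ∑ j, gN x i j * v i * v j
    = ‖v‖ ^ 2 + hN (‖x‖ ^ 2) * (dt v.ofLp (Jv x.ofLp)) ^ 2 := by
  have h := metJ_form hN x v.ofLp v.ofLp
  rw [dat_N_eq, dat_Y_eq] at h
  have h2 : dt v.ofLp v.ofLp = ‖v‖ ^ 2 := by
    rw [EuclideanSpace.norm_sq_eq]; simp [dt, sq]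
  rw [h2] at h
  rw [sq (dt _ _), ← h]
  refine Finset.sum_congr rfl fun i _ => Finset.sum_congr rfl fun j _ => ?_
  unfold gN
  ring

lemma gN_low (x v : E 6) : ‖v‖ ^ 2 ≤ ∑ i, ∑ j, gN x i j * v i * v j := by
  rw [metJ_formN]
  have := mul_nonneg (hN_nonneg (s := ‖x‖ ^ 2) (by positivity))
    (sq_nonneg (dt v.ofLp (Jv x.ofLp)))
  linarith

lemma gN_up (x v : E 6) : ∑ i, ∑ j, gN x i j * v i * v j ≤ (Real.sqrt 6 * ‖v‖) ^ 2 := by
  rw [metJ_formN, mul_pow, Real.sq_sqrt (by norm_num)]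
  have h1 := dt_sq_le v.ofLp (Jv x.ofLp)
  rw [dt_Jv_Jv] at h1
  have hv : dt v.ofLp v.ofLp = ‖v‖ ^ 2 := by
    rw [EuclideanSpace.norm_sq_eq]; simp [dt, sq]
  have hx : dt x.ofLp x.ofLp = ‖x‖ ^ 2 := by
    rw [EuclideanSpace.norm_sq_eq]; simp [dt, sq]
  rw [hv, hx] at h1
  have h2 := hN_nonneg (s := ‖x‖ ^ 2) (by positivity)
  have h3 := (gN_D_bounds x).2
  have h4 : hN (‖x‖ ^ 2) * dt v.ofLp (Jv x.ofLp) ^ 2 ≤ hN (‖x‖ ^ 2) * (‖v‖ ^ 2 * ‖x‖ ^ 2) :=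
    mul_le_mul_of_nonneg_left h1 h2
  nlinarith [sq_nonneg ‖v‖]

lemma gN_complete : IsCompleteMetric gN :=
  complete_of_bounds (Real.sqrt_nonneg 6) (fun i j => (gN_contDiff i j).continuous) gN_low gN_up

lemma gN_posDef (x : E 6) : (gN x).PosDef := by
  refine Matrix.PosDef.of_dotProduct_mulVec_pos ?_ ?_
  · ext i j
    simp only [Matrix.conjTranspose_apply, gN, metJ, Matrix.of_apply, Matrix.one_apply, eq_comm,
      star_trivial]
    ring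
  · intro u hu
    have e : star u ⬝ᵥ (gN x *ᵥ u) = ∑ i, ∑ j, gN x i j * u i * u j := by
      simp only [dotProduct, Matrix.mulVec, Pi.star_apply, star_trivial, Finset.mul_sum]
      refine Finset.sum_congr rfl fun i _ => Finset.sum_congr rfl fun j _ => by ring
    have h := gN_low x (WithLp.toLp 2 u)
    have h0 : 0 < ‖(WithLp.toLp 2 u : E 6)‖ := by
      rw [norm_pos_iff]
      intro h0
      apply hu
      have := congrArg WithLp.ofLp h0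
      simpa using this
    rw [e]
    have h1 : 0 < ‖(WithLp.toLp 2 u : E 6)‖ ^ 2 := by positivity
    exact lt_of_lt_of_le h1 h

lemma gN_riem : IsRiemannianOn gN Set.univ :=
  ⟨fun i j => (gN_contDiff i j).contDiffOn, fun x _ => gN_posDef x⟩

end

end Pool.Agent.W542.GBC
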