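import Pool.Agent.W542.GBCNeg

/-!
Asymptotics and Gauss-Bonnet-Chern mass of the metric `gN`.
-/

namespace Pool.Agent.W542.GBC

open scoped BigOperators ContDiff Topology Matrix
open MeasureTheory Filter Metric Pool.Agent.H498R3.GB

noncomputable section

lemma abs_coord_le (x : E 6) (i : Fin 6) : |x i| ≤ ‖x‖ := by
  have := EuclideanSpace.norm_sq_eq x
  have h1 : (x i) ^ 2 ≤ ‖x‖ ^ 2 := by
    rw [this]
    have := Finset.single_le_sum (f := fun j => ‖x j‖ ^ 2) (fun j _ => by positivity)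
      (Finset.mem_univ i)
    simpa using this
  exact abs_le_of_sq_le_sq h1 (norm_nonneg x)

lemma yv_eq (x : E 6) (i : Fin 6) : yv J6 i x = Jv x.ofLp i := rfl

lemma abs_yv_le (x : E 6) (i : Fin 6) : |yv J6 i x| ≤ ‖x‖ := by
  rw [yv_eq, Jv_apply]
  fin_cases i <;> simp <;> exact abs_coord_le x _

lemma abs_J6_le (i j : Fin 6) : |J6 i j| ≤ 1 := by
  fin_cases i <;> fin_cases j <;> simp [J6]

lemma abs_one_le (i j : Fin 6) : |(1 : Matrix (Fin 6) (Fin 6) ℝ) i j| ≤ 1 := by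
  rw [Matrix.one_apply]; split_ifs <;> simp

lemma abs_yy_le (x : E 6) (i j : Fin 6) : |yv J6 i x * yv J6 j x| ≤ ‖x‖ ^ 2 := by
  rw [abs_mul, sq]
  exact mul_le_mul (abs_yv_le x i) (abs_yv_le x j) (abs_nonneg _) (norm_nonneg _)

lemma abs_Jy_le (x : E 6) (k i j : Fin 6) :
    |J6 i k * yv J6 j x + yv J6 i x * J6 j k| ≤ 2 * ‖x‖ := by
  refine (abs_add_le _ _).trans ?_
  rw [abs_mul, abs_mul]
  have h1 := mul_le_mul (abs_J6_le i k) (abs_yv_le x j) (abs_nonneg _) zero_le_one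
  have h2 := mul_le_mul (abs_yv_le x i) (abs_J6_le j k) (abs_nonneg _) (norm_nonneg x)
  linarith

lemma abs_JJ_le (k l i j : Fin 6) :
    |J6 i l * J6 j k + J6 i k * J6 j l| ≤ 2 := by
  refine (abs_add_le _ _).trans ?_
  rw [abs_mul, abs_mul]
  have h1 := mul_le_mul (abs_J6_le i l) (abs_J6_le j k) (abs_nonneg _) zero_le_one
  have h2 := mul_le_mul (abs_J6_le i k) (abs_J6_le j l) (abs_nonneg _) zero_le_one
  linarith

/-- bounds for the metric `δ + h(|x|²) Jx ⊗ Jx` and its derivatives -/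
lemma bounds_metJ {h : ℝ → ℝ} (hh : ContDiff ℝ ∞ h) (x : E 6) {r H0 H1 H2 : ℝ} (hr : ‖x‖ = r)
    (h0 : |h (r ^ 2)| ≤ H0) (h1 : |deriv h (r ^ 2)| ≤ H1) (h2 : |deriv (deriv h) (r ^ 2)| ≤ H2)
    (i j k l : Fin 6) :
    |metJ J6 h x i j - (1 : Matrix (Fin 6) (Fin 6) ℝ) i j| ≤ H0 * r ^ 2 ∧
    |pd k (fun z => metJ J6 h z i j) x| ≤ 2 * H1 * r ^ 3 + 2 * H0 * r ∧
    |pd l (pd k (fun z => metJ J6 h z i j)) x| ≤ 10 * H1 * r ^ 2 + 4 * H2 * r ^ 4 + 2 * H0 := by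
  have hr0 : 0 ≤ r := hr ▸ norm_nonneg x
  have hH0 : 0 ≤ H0 := (abs_nonneg _).trans h0
  have hH1 : 0 ≤ H1 := (abs_nonneg _).trans h1
  have hH2 : 0 ≤ H2 := (abs_nonneg _).trans h2
  have yy := abs_yy_le x i j
  have jy := fun k => abs_Jy_le x k i j
  have jj := abs_JJ_le l k i j
  have cx := fun k => abs_coord_le x k
  rw [hr] at yy
  simp only [hr] at jy cx
  refine ⟨?_, ?_, ?_⟩
  · unfold metJ
    simp only [Matrix.of_apply, add_sub_cancel_left]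
    rw [abs_mul, hr]
    exact mul_le_mul h0 yy (abs_nonneg _) hH0
  · rw [pd_metJ J6 hh, hr]
    unfold T1
    refine (abs_add_le _ _).trans ?_
    have e1 : |2 * x k * deriv h (r ^ 2) * (yv J6 i x * yv J6 j x)| ≤ 2 * H1 * r ^ 3 := by
      rw [abs_mul, abs_mul, abs_mul, abs_of_pos (show (0:ℝ) < 2 by norm_num)]
      calc 2 * |x k| * |deriv h (r ^ 2)| * |yv J6 i x * yv J6 j x| ≤ 2 * r * H1 * r ^ 2 := by
            gcongr
            exact cx k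
        _ = 2 * H1 * r ^ 3 := by ring
    have e2 : |h (r ^ 2) * (J6 i k * yv J6 j x + yv J6 i x * J6 j k)| ≤ 2 * H0 * r := by
      rw [abs_mul]
      calc _ ≤ H0 * (2 * r) := mul_le_mul h0 (jy k) (abs_nonneg _) hH0
        _ = 2 * H0 * r := by ring
    linarith
  · rw [pd_pd_metJ J6 hh, hr]
    unfold S2
    have a1 : |2 * (1 : Matrix (Fin 6) (Fin 6) ℝ) l k * deriv h (r ^ 2)
        * (yv J6 i x * yv J6 j x)| ≤ 2 * H1 * r ^ 2 := by
      rw [abs_mul, abs_mul, abs_mul, abs_of_pos (show (0:ℝ) < 2 by norm_num)]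
      have := abs_one_le l k
      calc _ ≤ 2 * 1 * H1 * r ^ 2 := by gcongr
        _ = 2 * H1 * r ^ 2 := by ring
    have a2 : |4 * x l * x k * deriv (deriv h) (r ^ 2) * (yv J6 i x * yv J6 j x)|
        ≤ 4 * H2 * r ^ 4 := by
      rw [abs_mul, abs_mul, abs_mul, abs_mul, abs_of_pos (show (0:ℝ) < 4 by norm_num)]
      have c1 := cx l
      have c2 := cx k
      calc _ ≤ 4 * r * r * H2 * r ^ 2 := by gcongr
        _ = 4 * H2 * r ^ 4 := by ring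
    have a3 : |2 * x k * deriv h (r ^ 2) * (J6 i l * yv J6 j x + yv J6 i x * J6 j l)|
        ≤ 4 * H1 * r ^ 2 := by
      rw [abs_mul, abs_mul, abs_mul, abs_of_pos (show (0:ℝ) < 2 by norm_num)]
      have c2 := cx k
      have c3 := jy l
      calc _ ≤ 2 * r * H1 * (2 * r) := by gcongr
        _ = 4 * H1 * r ^ 2 := by ring
    have a4 : |2 * x l * deriv h (r ^ 2) * (J6 i k * yv J6 j x + yv J6 i x * J6 j k)|
        ≤ 4 * H1 * r ^ 2 := by
      rw [abs_mul, abs_mul, abs_mul, abs_of_pos (show (0:ℝ) < 2 by norm_num)]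
      have c2 := cx l
      have c3 := jy k
      calc _ ≤ 2 * r * H1 * (2 * r) := by gcongr
        _ = 4 * H1 * r ^ 2 := by ring
    have a5 : |h (r ^ 2) * (J6 i k * J6 j l + J6 i l * J6 j k)| ≤ 2 * H0 := by
      rw [abs_mul]
      calc _ ≤ H0 * 2 := mul_le_mul h0 jj (abs_nonneg _) hH0
        _ = 2 * H0 := by ring
    refine (abs_add_le _ _).trans ?_
    refine (add_le_add ((abs_add_le _ _).trans (add_le_add ((abs_add_le _ _).trans (add_le_add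
      ((abs_add_le _ _).trans (add_le_add a1 a2)) a3)) a4)) a5).trans ?_
    linarith

theorem gN_AF : IsAsymptoticallyFlat gN 1 := by
  refine ⟨160, 1, by norm_num, fun x hx i j k l => ?_⟩
  set r := ‖x‖ with hr
  have hr0 : 0 < r := by linarith
  have hs0 : (0 : ℝ) ≤ r ^ 2 := by positivity
  have htp : 0 < sg (r ^ 2) := sg_pos (by linarith)
  have hq := sg_sq (s := r ^ 2) (by linarith)
  have e0 : |hN (r ^ 2)| ≤ 5 * sg (r ^ 2) ^ 3 := by
    rw [hN_eq (by linarith), abs_of_pos (by positivity)]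
  have e1 : |deriv hN (r ^ 2)| ≤ 15 / 2 * sg (r ^ 2) ^ 5 := by
    rw [hN_deriv (by linarith), abs_mul, abs_of_pos (show 0 < sg (r ^ 2) ^ 5 by positivity)]
    norm_num
  have e2 : |deriv (deriv hN) (r ^ 2)| ≤ 75 / 4 * sg (r ^ 2) ^ 7 := by
    rw [hN_deriv2 (by linarith), abs_of_pos (by positivity)]
  obtain ⟨b0, b1, b2⟩ := bounds_metJ hN_contDiff x hr.symm e0 e1 e2 i j k l
  set t := sg (r ^ 2)
  -- `t r ≤ 1`
  have htr : t * r ≤ 1 := by
    have : (t * r) ^ 2 ≤ 1 := by nlinarith [sq_nonneg t]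
    nlinarith [mul_pos htp hr0]
  have htr0 : 0 ≤ t * r := by positivity
  have f1 : ‖x‖ ^ (-(1 : ℝ)) = r⁻¹ := by rw [← hr, Real.rpow_neg_one]
  have f2 : ‖x‖ ^ (-(1 : ℝ) - 1) = (r⁻¹) ^ 2 := by
    rw [← hr, show (-(1 : ℝ) - 1) = -((2 : ℕ) : ℝ) by norm_num, Real.rpow_neg hr0.le,
      Real.rpow_natCast, inv_pow]
  have f3 : ‖x‖ ^ (-(1 : ℝ) - 2) = (r⁻¹) ^ 3 := by
    rw [← hr, show (-(1 : ℝ) - 2) = -((3 : ℕ) : ℝ) by norm_num, Real.rpow_neg hr0.le,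
      Real.rpow_natCast, inv_pow]
  have hti : t ≤ r⁻¹ := by
    rw [← one_div, le_div_iff₀ hr0]; exact htr
  have ht2 : t ^ 2 ≤ (r⁻¹) ^ 2 := pow_le_pow_left₀ htp.le hti 2
  have ht3 : t ^ 3 ≤ (r⁻¹) ^ 3 := pow_le_pow_left₀ htp.le hti 3
  have p2 : (t * r) ^ 2 ≤ 1 := pow_le_one₀ htr0 htr
  have p3 : (t * r) ^ 3 ≤ 1 := pow_le_one₀ htr0 htr
  have p4 : (t * r) ^ 4 ≤ 1 := pow_le_one₀ htr0 htr
  have hri : 0 < r⁻¹ := by positivity
  rw [f1, f2, f3]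
  refine ⟨b0.trans ?_, b1.trans ?_, b2.trans ?_⟩
  · have : 5 * t ^ 3 * r ^ 2 = 5 * (t * (t * r) ^ 2) := by ring
    rw [this]
    have : t * (t * r) ^ 2 ≤ r⁻¹ * 1 := mul_le_mul hti p2 (by positivity) hri.le
    nlinarith
  · have : 2 * (15 / 2 * t ^ 5) * r ^ 3 + 2 * (5 * t ^ 3) * r
      = 15 * (t ^ 2 * (t * r) ^ 3) + 10 * (t ^ 2 * (t * r)) := by ring
    rw [this]
    have c1 : t ^ 2 * (t * r) ^ 3 ≤ (r⁻¹) ^ 2 * 1 := mul_le_mul ht2 p3 (by positivity) (by positivity)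
    have c2 : t ^ 2 * (t * r) ≤ (r⁻¹) ^ 2 * 1 := mul_le_mul ht2 htr (by positivity) (by positivity)
    nlinarith [pow_pos hri 2]
  · have : 10 * (15 / 2 * t ^ 5) * r ^ 2 + 4 * (75 / 4 * t ^ 7) * r ^ 4 + 2 * (5 * t ^ 3)
      = 75 * (t ^ 3 * (t * r) ^ 2) + 75 * (t ^ 3 * (t * r) ^ 4) + 10 * t ^ 3 := by ring
    rw [this]
    have c1 : t ^ 3 * (t * r) ^ 2 ≤ (r⁻¹) ^ 3 * 1 := mul_le_mul ht3 p2 (by positivity) (by positivity)
    have c2 : t ^ 3 * (t * r) ^ 4 ≤ (r⁻¹) ^ 3 * 1 := mul_le_mul ht3 p4 (by positivity) (by positivity)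
    nlinarith [pow_pos hri 3]

theorem massIntegrand_gN (x : E 6) (hx : ‖x‖ ≠ 0) {t : ℝ} (ht : t = sg (‖x‖ ^ 2)) :
    massIntegrand gN x = 150 * ‖x‖ * t ^ 6 * (6 * t ^ 2 - 1) / (1 + 5 * t * (1 - t ^ 2)) := by
  have hs0 : 0 ≤ ‖x‖ ^ 2 := by positivity
  have hDpos : 0 < 1 + hN (‖x‖ ^ 2) * ‖x‖ ^ 2 := by linarith [(gN_D_bounds x).1]
  obtain ⟨f, hf⟩ := exists_adapted hN x (v := (Real.sqrt (1 + hN (‖x‖ ^ 2) * ‖x‖ ^ 2))⁻¹)
  have hsq : (Real.sqrt (1 + hN (‖x‖ ^ 2) * ‖x‖ ^ 2))⁻¹ ^ 2 = 1 / (1 + hN (‖x‖ ^ 2) * ‖x‖ ^ 2) := by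
    rw [inv_pow, Real.sq_sqrt hDpos.le, one_div]
  have hv : (Real.sqrt (1 + hN (‖x‖ ^ 2) * ‖x‖ ^ 2))⁻¹ ^ 2 * (1 + hN (‖x‖ ^ 2) * ‖x‖ ^ 2) = 1 := by
    rw [hsq]; exact one_div_mul_cancel hDpos.ne'
  have hM := ginv_adapted hN x hv hf
  have h := massIntegrand_value hN_contDiff x hx hM hf rfl rfl rfl
  unfold gN
  rw [h, hsq]
  have e0 : (dat J6 hN x).h0 = 5 * t ^ 3 := by
    change hN (‖x‖ ^ 2) = _
    rw [hN_eq (by linarith), ht]
  have e1 : (dat J6 hN x).h1 = -(15 / 2) * t ^ 5 := by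
    change deriv hN (‖x‖ ^ 2) = _
    rw [hN_deriv (by linarith), ht]
  have hq := sg_sq (s := ‖x‖ ^ 2) (by linarith)
  rw [e0, e1, gN_D, ← ht]
  rw [← ht] at hq
  have hD : 1 + 5 * t * (1 - t ^ 2) ≠ 0 := by
    have := gN_D x
    rw [← ht] at this
    rw [← this]; exact hDpos.ne'
  field_simp
  linear_combination (-1800 * t ^ 6 : ℝ) * hq

lemma sg_tendsto : Tendsto (fun r : ℝ => sg (r ^ 2)) atTop (𝓝 0) := by
  unfold sg
  refine Tendsto.inv_tendsto_atTop ?_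
  refine Real.tendsto_sqrt_atTop.comp ?_
  exact tendsto_atTop_add_const_left _ _ (tendsto_pow_atTop (by norm_num))

lemma omega_pos : 0 < omegaSphere 6 := by
  unfold omegaSphere
  rw [MeasureTheory.Measure.toSphere_real_apply_univ]
  have : 0 < (volume : Measure (E 6)).real (ball 0 1) := by
    rw [measureReal_def]
    exact ENNReal.toReal_pos (measure_ball_pos _ _ one_pos).ne' measure_ball_lt_top.ne
  have h6 : (0 : ℝ) < (Module.finrank ℝ (E 6) : ℝ) := by simp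
  positivity

theorem gN_mass : HasGBCMass gN (-(5 / 4)) := by
  unfold HasGBCMass
  have h : (fun r : ℝ => ((6 - 4).factorial : ℝ) / (2 * ((6 - 1).factorial : ℝ) * omegaSphere 6) *
    sphereIntegral (massIntegrand gN) r) =ᶠ[atTop] fun r => (5 / 4) *
      ((1 - sg (r ^ 2) ^ 2) ^ 3 * (6 * sg (r ^ 2) ^ 2 - 1) /
        (1 + 5 * sg (r ^ 2) * (1 - sg (r ^ 2) ^ 2))) := by
    filter_upwards [eventually_gt_atTop 0] with r hr
    have hs0 : (0 : ℝ) ≤ r ^ 2 := by positivity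
    have hsph : sphereIntegral (massIntegrand gN) r = r ^ 5 *
        ((150 * r * sg (r ^ 2) ^ 6 * (6 * sg (r ^ 2) ^ 2 - 1) /
          (1 + 5 * sg (r ^ 2) * (1 - sg (r ^ 2) ^ 2))) * omegaSphere 6) := by
      unfold sphereIntegral
      have h0 : ∀ u : sphere (0 : E 6) 1, massIntegrand gN (r • (u : E 6)) =
          150 * r * sg (r ^ 2) ^ 6 * (6 * sg (r ^ 2) ^ 2 - 1) /
          (1 + 5 * sg (r ^ 2) * (1 - sg (r ^ 2) ^ 2)) := by
        intro u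
        have hn : ‖r • (u : E 6)‖ = r := by
          rw [norm_smul, norm_eq_of_mem_sphere u, mul_one, Real.norm_of_nonneg hr.le]
        rw [massIntegrand_gN _ (by rw [hn]; exact hr.ne') rfl, hn]
      simp only [h0]
      rw [integral_const, smul_eq_mul, mul_comm (Measure.real _ _)]
      rfl
    rw [hsph]
    have hq := sg_sq (s := r ^ 2) (by linarith)
    have hω := omega_pos.ne'
    set t := sg (r ^ 2)
    have htr : t ^ 2 * r ^ 2 = 1 - t ^ 2 := by linarith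
    have e : r ^ 5 * ((150 * r * t ^ 6 * (6 * t ^ 2 - 1) / (1 + 5 * t * (1 - t ^ 2)))
        * omegaSphere 6) = omegaSphere 6 * (150 * ((t ^ 2 * r ^ 2) ^ 3 * (6 * t ^ 2 - 1) /
          (1 + 5 * t * (1 - t ^ 2)))) := by ring
    rw [e, htr]
    have f2 : ((6 - 4).factorial : ℝ) = 2 := by norm_num [Nat.factorial]
    have f5 : ((6 - 1).factorial : ℝ) = 120 := by norm_num [Nat.factorial]
    rw [f2, f5]
    field_simp
    ring
  refine Tendsto.congr' h.symm ?_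
  have hc : Tendsto (fun t : ℝ => (5 / 4 : ℝ) * ((1 - t ^ 2) ^ 3 * (6 * t ^ 2 - 1) /
        (1 + 5 * t * (1 - t ^ 2)))) (𝓝 0) (𝓝 (-(5 / 4))) := by
    have hcont : ContinuousAt (fun t : ℝ => (5 / 4 : ℝ) * ((1 - t ^ 2) ^ 3 * (6 * t ^ 2 - 1) /
        (1 + 5 * t * (1 - t ^ 2)))) 0 := by
      refine ContinuousAt.mul continuousAt_const (ContinuousAt.div ?_ ?_ (by norm_num))
      · fun_prop
      · fun_prop
    have := hcont.tendsto
    norm_num at this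
    exact this
  exact hc.comp sg_tendsto

end

end Pool.Agent.W542.GBC
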